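import Mathlib
import Pool.Agent.Lib.MP_763071_co.Final

set_option autoImplicit false

namespace Pool.Agent.Results.MP_763071_co.IntervalOrders

/-- Q1 for `d = 2` and every `n`, with `d₀ = 26 * 2 ^ n`: a finite poset of dimension at least
`26 * 2 ^ n` contains the standard example `S_2` or its cover graph has a `K_n` minor. -/
theorem result :
    ∀ n : ℕ, ∀ (P : Type) [Fintype P] [PartialOrder P],
      (∀ k : ℕ, k < 26 * 2 ^ n → ¬ ∃ f : Fin k → P → ℕ,
          (∀ i, Function.Injective (f i)) ∧ ∀ x y : P, x ≤ y ↔ ∀ i, f i x ≤ f i y) →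
      (∃ a b : Fin 2 → P, (∀ i j, i ≠ j → a i < b j) ∧ ∀ i, ¬ a i ≤ b i) ∨
      ∃ B : Fin n → Set P,
        (∀ i, ((SimpleGraph.fromRel (fun x y : P => x ⋖ y)).induce (B i)).Connected) ∧
        (∀ i j, i ≠ j → Disjoint (B i) (B j)) ∧
        ∀ i j, i ≠ j → ∃ x ∈ B i, ∃ y ∈ B j,
          (SimpleGraph.fromRel (fun x y : P => x ⋖ y)).Adj x y := by
  intro n P _ _ hdim
  by_contra hcon
  rw [not_or] at hcon
  obtain ⟨k, hk, hf⟩ := Pool.Agent.MP763071.main n P hcon.1 hcon.2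
  exact hdim k hk hf

end Pool.Agent.Results.MP_763071_co.IntervalOrders
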