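import Mathlib
import Pool.Agent.Lib.MP_763071_co.KK.All

set_option autoImplicit false

namespace Pool.Agent.Results.MP_763071_co.NoKPlusK

/-- For all `n` and `k` there is `d₀` such that every finite poset of dimension at least `d₀`
contains `k + k` (two mutually incomparable chains of `k` elements) or its cover graph has a
`K_n` minor. -/
theorem result :
    ∀ n k : ℕ, ∃ d₀ : ℕ, ∀ (P : Type) [Fintype P] [PartialOrder P],
      (∀ m : ℕ, m < d₀ → ¬ ∃ f : Fin m → P → ℕ,
          (∀ i, Function.Injective (f i)) ∧ ∀ x y : P, x ≤ y ↔ ∀ i, f i x ≤ f i y) →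
      (∃ a b : Fin k → P, StrictMono a ∧ StrictMono b ∧
          ∀ i j, ¬ a i ≤ b j ∧ ¬ b j ≤ a i) ∨
      ∃ B : Fin n → Set P,
        (∀ i, ((SimpleGraph.fromRel (fun x y : P => x ⋖ y)).induce (B i)).Connected) ∧
        (∀ i j, i ≠ j → Disjoint (B i) (B j)) ∧
        ∀ i j, i ≠ j → ∃ x ∈ B i, ∃ y ∈ B j,
          (SimpleGraph.fromRel (fun x y : P => x ⋖ y)).Adj x y :=
  Pool.Agent.MP763071.KK.final

end Pool.Agent.Results.MP_763071_co.NoKPlusK
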