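import Mathlib
import Pool.Agent.Lib.MP_763071_co.M.Final

set_option autoImplicit false

namespace Pool.Agent.Results.MP_763071_co.NoManyChains

/-- For all `n`, `d`, `r` and `k` there is `d₀` such that every finite poset `P` of dimension at least
`d₀` contains `r` pairwise incomparable chains of `k` elements each or the standard example `S_d`, or
has a cover graph with a `K_n` minor. -/
theorem result :
    ∀ n d r k : ℕ, ∃ d₀ : ℕ, ∀ (P : Type) [Fintype P] [PartialOrder P],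
      (∀ m : ℕ, m < d₀ → ¬ ∃ f : Fin m → P → ℕ,
          (∀ i, Function.Injective (f i)) ∧ ∀ x y : P, x ≤ y ↔ ∀ i, f i x ≤ f i y) →
      (∃ z : Fin r → Fin k → P, (∀ i, StrictMono (z i)) ∧
          ∀ i j, i ≠ j → ∀ s t, ¬ z i s ≤ z j t) ∨
      (∃ a b : Fin d → P, (∀ i j, i ≠ j → a i < b j) ∧ ∀ i, ¬ a i ≤ b i) ∨
      ∃ B : Fin n → Set P,
        (∀ i, ((SimpleGraph.fromRel (fun x y : P => x ⋖ y)).induce (B i)).Connected) ∧
        (∀ i j, i ≠ j → Disjoint (B i) (B j)) ∧
        ∀ i j, i ≠ j → ∃ x ∈ B i, ∃ y ∈ B j,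
          (SimpleGraph.fromRel (fun x y : P => x ⋖ y)).Adj x y := by
  intro n d r k
  obtain ⟨d0, h0⟩ := Pool.Agent.MP763071.M.noManyChains n d r k
  refine ⟨d0 + 1, ?_⟩
  intro P _ _ hdim
  by_contra hcon
  rw [not_or, not_or] at hcon
  exact hdim d0 (Nat.lt_succ_self _) (h0 P hcon.1 hcon.2.1 hcon.2.2)

end Pool.Agent.Results.MP_763071_co.NoManyChains
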